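import Mathlib

/-!
# MP_29b953_an : eventual uniqueness of the compressing polynomial

For every odd `N ≥ 3` the orbit of period `N` of `f = X ^ 2 - 2` starting at
`2 cos (2π / (2 ^ N - 1))` is a set of `N` distinct reals which is compressed both by `f`
(degree `2`) and by `f ∘ f` (degree `4`).
-/

set_option autoImplicit false

open Polynomial

namespace Pool.Agent.Results.MP_29b953_an.Chebyshev

/-- `f` is a compressing function for `S`, where `S` has `N` elements. -/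
def Compresses (f : ℝ[X]) (N : ℕ) (S : Set ℝ) : Prop :=
  ∃ x₀ ∈ S, S = {x | ∃ i < N, x = (fun y => f.eval y)^[i] x₀}

/-- `S` is a set of `N` distinct real numbers which is `K`-compressible. -/
def Compressible (K N : ℕ) (S : Set ℝ) : Prop :=
  S.encard = N ∧ ∃ f : ℝ[X], f.natDegree ≤ K ∧ Compresses f N S

/-- at most one polynomial of degree between `2` and `K` is a compressing function for `S`. -/
def UniquelyCompressible (K N : ℕ) (S : Set ℝ) : Prop :=
  Compressible K N S ∧ ∀ f g : ℝ[X], 2 ≤ f.natDegree → f.natDegree ≤ K →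
    2 ≤ g.natDegree → g.natDegree ≤ K → Compresses f N S → Compresses g N S → f = g

/-- the angles -/
noncomputable def θ (N : ℕ) : ℝ := 2 * Real.pi / (2 ^ N - 1)

/-- the orbit -/
noncomputable def xs (N i : ℕ) : ℝ := 2 * Real.cos (2 ^ i * θ N)

noncomputable def f₂ : ℝ[X] := X ^ 2 - C 2

lemma step (N i : ℕ) : f₂.eval (xs N i) = xs N (i + 1) := by
  simp only [f₂, xs, eval_sub, eval_pow, eval_X, eval_C]
  rw [show (2 : ℝ) ^ (i + 1) * θ N = 2 * (2 ^ i * θ N) by ring, Real.cos_two_mul]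
  ring

lemma iter (N i : ℕ) : (fun y => f₂.eval y)^[i] (xs N 0) = xs N i := by
  induction i with
  | zero => rfl
  | succ i ih => rw [Function.iterate_succ_apply', ih]; exact step N i

lemma pos_den {N : ℕ} (hN : 1 ≤ N) : (0 : ℝ) < 2 ^ N - 1 := by
  have : (2 : ℝ) ^ 1 ≤ 2 ^ N := pow_le_pow_right₀ (by norm_num) hN
  linarith

lemma periodic {N : ℕ} (hN : 1 ≤ N) (i : ℕ) : xs N (i + N) = xs N i := by
  have h := pos_den hN
  simp only [xs]
  have : (2 : ℝ) ^ (i + N) * θ N = 2 ^ i * θ N + (2 ^ i : ℕ) * (2 * Real.pi) := by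
    rw [θ]
    push_cast
    field_simp
    ring
  rw [this, Real.cos_add_nat_mul_two_pi]

lemma per_mod {N : ℕ} (hN : 1 ≤ N) (i : ℕ) : xs N (i % N) = xs N i := by
  have : ∀ k j, xs N (j + k * N) = xs N j := by
    intro k j
    induction k with
    | zero => simp
    | succ k ih => rw [Nat.succ_mul, ← add_assoc, periodic hN, ih]
  conv_rhs => rw [← Nat.mod_add_div i N, mul_comm]
  rw [this]

/-- for `i < N` the point `xs N i` is `2 cos (k θ)` with `k = 2 ^ i` or (for `i = N - 1`)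
`k = 2 ^ (N - 1) - 1`, all in `[0, π]`. -/
lemma last {N : ℕ} (hN : 1 ≤ N) :
    xs N (N - 1) = 2 * Real.cos ((2 ^ (N - 1) - 1) * θ N) := by
  have h := pos_den hN
  obtain ⟨m, rfl⟩ : ∃ m, N = m + 1 := ⟨N - 1, by omega⟩
  simp only [xs, Nat.add_sub_cancel]
  have : ((2 : ℝ) ^ m - 1) * θ (m + 1) = 2 * Real.pi - 2 ^ m * θ (m + 1) := by
    rw [θ]
    field_simp
    ring
  rw [this, Real.cos_two_pi_sub]

lemma inj {N : ℕ} (hN : 3 ≤ N) {i j : ℕ} (hi : i < N) (hj : j < N) (h : xs N i = xs N j) :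
    i = j := by
  have hp := pos_den (N := N) (by omega)
  have hθ : 0 < θ N := by rw [θ]; positivity
  -- representation by a natural number `a i` with `a i * θ ∈ [0, π]`
  have key : ∀ i < N, ∃ a : ℕ, xs N i = 2 * Real.cos (a * θ N) ∧ 2 * a ≤ 2 ^ N - 1 ∧
      ((i < N - 1 ∧ a = 2 ^ i) ∨ (i = N - 1 ∧ a = 2 ^ (N - 1) - 1)) := by
    intro i hi
    rcases Nat.lt_or_ge i (N - 1) with h1 | h1
    · refine ⟨2 ^ i, by simp [xs], ?_, Or.inl ⟨h1, rfl⟩⟩
      have h2 : 2 ^ (i + 2) ≤ 2 ^ N := Nat.pow_le_pow_right (by norm_num) (by omega)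
      have h3 : 1 ≤ 2 ^ i := Nat.one_le_two_pow
      have h4 : 2 ^ (i + 2) = 4 * 2 ^ i := by ring
      omega
    · have h2 : i = N - 1 := by omega
      refine ⟨2 ^ (N - 1) - 1, ?_, ?_, Or.inr ⟨h2, rfl⟩⟩
      · rw [h2, last (by omega)]
        have : 1 ≤ 2 ^ (N - 1) := Nat.one_le_two_pow
        push_cast [Nat.cast_sub this]
        rfl
      · have h3 : 2 ^ N = 2 * 2 ^ (N - 1) := by
          conv_lhs => rw [show N = N - 1 + 1 by omega]
          ring
        have h4 : 1 ≤ 2 ^ (N - 1) := Nat.one_le_two_pow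
        omega
  obtain ⟨a, ha1, ha2, ha3⟩ := key i hi
  obtain ⟨b, hb1, hb2, hb3⟩ := key j hj
  have hmem : ∀ a : ℕ, 2 * a ≤ 2 ^ N - 1 → (a : ℝ) * θ N ∈ Set.Icc 0 Real.pi := by
    intro a ha
    refine ⟨by positivity, ?_⟩
    have : (2 : ℝ) * a ≤ 2 ^ N - 1 := by
      have h1 : 1 ≤ 2 ^ N := Nat.one_le_two_pow
      have h2 : ((2 * a : ℕ) : ℝ) ≤ ((2 ^ N - 1 : ℕ) : ℝ) := by exact_mod_cast ha
      push_cast [Nat.cast_sub h1] at h2
      exact h2
    rw [θ, ← mul_div_assoc, div_le_iff₀ hp]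
    nlinarith [Real.pi_pos]
  have hab : (a : ℝ) * θ N = b * θ N := by
    refine Real.injOn_cos (hmem a ha2) (hmem b hb2) ?_
    rw [ha1, hb1] at h
    linarith
  have hab2 : a = b := by
    have := mul_right_cancel₀ hθ.ne' hab
    exact_mod_cast this
  have hne : ∀ i < N - 1, 2 ^ i ≠ 2 ^ (N - 1) - 1 := by
    intro i hi h
    have h4 : 1 ≤ 2 ^ (N - 1) := Nat.one_le_two_pow
    rcases Nat.eq_zero_or_pos i with h0 | h0
    · subst h0
      have : 2 ^ 2 ≤ 2 ^ (N - 1) := Nat.pow_le_pow_right (by norm_num) (by omega)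
      omega
    · have h5 : 2 ∣ 2 ^ i := dvd_pow_self 2 (by omega)
      have h6 : 2 ∣ 2 ^ (N - 1) := dvd_pow_self 2 (by omega)
      omega
  rcases ha3 with ⟨h1, h2⟩ | ⟨h1, h2⟩ <;> rcases hb3 with ⟨h3, h4⟩ | ⟨h3, h4⟩
  · have : 2 ^ i = 2 ^ j := by rw [← h2, ← h4, hab2]
    exact Nat.pow_right_injective le_rfl this
  · exact absurd (by rw [← h2, ← h4, hab2]) (hne i h1)
  · exact absurd (by rw [← h2, ← h4, hab2]) (hne j h3)
  · omega

/-- the set -/
noncomputable def Sset (N : ℕ) : Set ℝ := {x | ∃ i < N, x = xs N i}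

lemma card_S {N : ℕ} (hN : 3 ≤ N) : (Sset N).encard = N := by
  have : Sset N = (xs N) '' (Finset.range N : Set ℕ) := by
    ext x
    simp only [Sset, Set.mem_ofPred_eq, Set.mem_image, Finset.coe_range, Set.mem_Iio]
    constructor
    · rintro ⟨i, hi, rfl⟩; exact ⟨i, hi, rfl⟩
    · rintro ⟨i, hi, rfl⟩; exact ⟨i, hi, rfl⟩
  have hinj : Set.InjOn (xs N) (Finset.range N : Set ℕ) := by
    intro i hi j hj h
    exact inj hN (Finset.mem_range.1 hi) (Finset.mem_range.1 hj) h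
  rw [this, hinj.encard_image, Set.encard_coe_eq_coe_finsetCard, Finset.card_range]

noncomputable def f₄ : ℝ[X] := f₂.comp f₂

lemma iter4 (N i : ℕ) : (fun y => f₄.eval y)^[i] (xs N 0) = xs N (2 * i) := by
  induction i with
  | zero => rfl
  | succ i ih =>
    rw [Function.iterate_succ_apply', ih]
    simp only [f₄, eval_comp]
    rw [step, step]
    ring_nf

lemma deg2 : f₂.natDegree = 2 := by
  rw [f₂]; exact natDegree_X_pow_sub_C

lemma deg4 : f₄.natDegree = 4 := by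
  rw [f₄, natDegree_comp, deg2]

lemma comp2 {N : ℕ} (hN : 1 ≤ N) : Compresses f₂ N (Sset N) := by
  refine ⟨xs N 0, ⟨0, by omega, rfl⟩, ?_⟩
  ext x
  simp only [Sset, Set.mem_ofPred_eq, iter]

lemma comp4 {N : ℕ} (hN : 1 ≤ N) (ho : Odd N) : Compresses f₄ N (Sset N) := by
  refine ⟨xs N 0, ⟨0, by omega, rfl⟩, ?_⟩
  ext x
  simp only [Sset, Set.mem_ofPred_eq, iter4]
  constructor
  · rintro ⟨i, hi, rfl⟩
    obtain ⟨k, hk⟩ := ho
    rcases Nat.even_or_odd i with ⟨j, hj⟩ | ⟨j, hj⟩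
    · exact ⟨j, by omega, by rw [hj]; ring_nf⟩
    · refine ⟨j + k + 1, by omega, ?_⟩
      rw [← periodic hN]
      congr 1
      omega
  · rintro ⟨i, hi, rfl⟩
    exact ⟨(2 * i) % N, Nat.mod_lt _ (by omega), by rw [per_mod hN]⟩

/-- For every `K ≥ 4` and every odd `N ≥ 3` there is a `K`-compressible set of `N` distinct
real numbers which is not uniquely `K`-compressible: it is compressed by two polynomials of
degrees `2` and `4`. -/
theorem result :
    ∀ K : ℕ, 4 ≤ K → ∀ N : ℕ, 3 ≤ N → Odd N →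
      ∃ S : Set ℝ, S.encard = N ∧ Compressible K N S ∧ ¬ UniquelyCompressible K N S ∧
        ∃ f g : ℝ[X], f.natDegree = 2 ∧ g.natDegree = 4 ∧ Compresses f N S ∧
          Compresses g N S := by
  intro K hK N hN ho
  have hc : Compressible K N (Sset N) :=
    ⟨card_S hN, f₂, by rw [deg2]; omega, comp2 (by omega)⟩
  refine ⟨Sset N, card_S hN, hc, ?_, f₂, f₄, deg2, deg4, comp2 (by omega),
    comp4 (by omega) ho⟩
  rintro ⟨-, h⟩
  have := h f₂ f₄ (by rw [deg2]) (by rw [deg2]; omega) (by rw [deg4]; omega) (by rw [deg4]; omega)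
    (comp2 (by omega)) (comp4 (by omega) ho)
  have h2 := congrArg natDegree this
  rw [deg2, deg4] at h2
  omega

end Pool.Agent.Results.MP_29b953_an.Chebyshev
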